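import Mathlib
import Pool.Agent.Helper70.Fin

/-!
# Residuals of joins of subnormal subgroups: a counterexample with subgroups of defect two

All groups are finite. A class of finite groups is a predicate on groups (in `Type`).
-/

namespace Pool.Agent.Results.MP_1b0854_al.DefectTwo

/-- `F` is a formation of finite groups: all its members are finite, and it is closed under
isomorphic images, under quotients, and `G/M ∈ F`, `G/N ∈ F` imply `G/(M ∩ N) ∈ F`. -/
structure IsFormation (F : (G : Type) → [Group G] → Prop) : Prop where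
  finite : ∀ (G : Type) [Group G], F G → Finite G
  iso : ∀ (G H : Type) [Group G] [Group H], Nonempty (G ≃* H) → F G → F H
  quotient : ∀ (G : Type) [Group G] (N : Subgroup G) [N.Normal], F G → F (G ⧸ N)
  inter : ∀ (G : Type) [Group G] [Finite G] (M N : Subgroup G) [M.Normal] [N.Normal],
    F (G ⧸ M) → F (G ⧸ N) → F (G ⧸ M ⊓ N)

/-- `F` is a radical formation: a formation that is closed under normal subgroups and under
products of two normal subgroups. -/
structure IsRadicalFormation (F : (G : Type) → [Group G] → Prop) : Prop extends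
    IsFormation F where
  normal : ∀ (G : Type) [Group G] [Finite G] (N : Subgroup G), N.Normal → F G → F N
  product : ∀ (G : Type) [Group G] [Finite G] (A B : Subgroup G), A.Normal → B.Normal →
    F A → F B → F (A ⊔ B : Subgroup G)

/-- `F` is solubly saturated (Baer-local): `G ∈ F` whenever `G/Φ(N) ∈ F` for some soluble normal
subgroup `N` of `G`, where `Φ(N)` is the Frattini subgroup of `N`, seen as a subgroup of `G`. -/
def SolublySaturated (F : (G : Type) → [Group G] → Prop) : Prop :=
  ∀ (G : Type) [Group G] [Finite G] (N : Subgroup G) [N.Normal], Group.IsSolvable N →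
    F (G ⧸ (frattini N).map N.subtype) → F G

/-- The `F`-residual of `X`: the intersection of all normal subgroups `N` of `X` with
`X/N ∈ F`. -/
def residual (F : (G : Type) → [Group G] → Prop) (X : Type) [Group X] : Subgroup X :=
  sInf {N : Subgroup X | ∃ _ : N.Normal, F (X ⧸ N)}

/-- The `F`-residual `H^F` of the group `H`, for a subgroup `H` of `G`, as a subgroup of `G`. -/
def res (F : (G : Type) → [Group G] → Prop) {G : Type} [Group G] (H : Subgroup G) : Subgroup G :=
  (residual F H).map H.subtype

/-- `H` is a subnormal subgroup of `G` of defect at most two: a normal subgroup of a normal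
subgroup of `G`. -/
def SubnormalTwo {G : Type} [Group G] (H : Subgroup G) : Prop :=
  ∃ M : Subgroup G, M.Normal ∧ H ≤ M ∧ (H.subgroupOf M).Normal

open Pool.Agent.Helper70

/-- The class of the counterexample. -/
def CC (G : Type) [Group G] : Prop := Finite G ∧ FF G

lemma cc_iff {G : Type} [Group G] [Finite G] : CC G ↔ FF G := ⟨fun h => h.2, fun h => ⟨‹_›, h⟩⟩

lemma cc_surj {G Q : Type} [Group G] [Group Q] (f : G →* Q) (hf : Function.Surjective f)
    (h : CC G) : CC Q := by
  have := h.1
  exact ⟨Finite.of_surjective f hf, FF.of_surjective hf h.2⟩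

lemma cc_normal {G : Type} [Group G] (N : Subgroup G) (hN : N.Normal) (h : CC G) : CC N := by
  have := h.1
  exact ⟨inferInstance, FF.normal hN h.2⟩

lemma radical_cc : IsRadicalFormation (fun G [Group G] => CC G) where
  finite G _ h := h.1
  iso G H _ _ e h := by
    obtain ⟨e⟩ := e
    exact cc_surj e.toMonoidHom e.surjective h
  quotient G _ N _ h := cc_surj (QuotientGroup.mk' N) (QuotientGroup.mk'_surjective N) h
  inter G _ _ M N _ _ h₁ h₂ := by
    refine ⟨inferInstance, ?_⟩
    exact FF.subdirect (QuotientGroup.mk' M) (QuotientGroup.mk' N) (QuotientGroup.mk' (M ⊓ N))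
      (QuotientGroup.mk'_surjective M) (QuotientGroup.mk'_surjective N)
      (QuotientGroup.mk'_surjective _) (by simp only [QuotientGroup.ker_mk']) h₁.2 h₂.2
  normal G _ _ N hN h := cc_normal N hN h
  product G _ _ A B hA hB h₁ h₂ := ⟨inferInstance, FF.normal_product hA hB h₁.2 h₂.2⟩

lemma saturated_cc : SolublySaturated (fun G [Group G] => CC G) := by
  intro G _ _ N _ hs h
  refine ⟨inferInstance, ?_⟩
  exact FF.saturated hs (QuotientGroup.mk' _) (QuotientGroup.mk'_surjective _)
    (QuotientGroup.ker_mk' _) h.2

lemma cc_of_solvable {G : Type} [Group G] [Finite G] (h : Group.IsSolvable G) : CC G := by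
  refine ⟨inferInstance, ?_⟩
  intro Z Y hA
  exfalso
  have hZ := hA.hZ
  have h1 : Group.IsSolvable Z := inferInstance
  have h2 : (⁅(⊤ : Subgroup Z), (⊤ : Subgroup Z)⁆ : Subgroup Z) = ⊤ := by
    apply Subgroup.map_injective Z.subtype_injective
    rw [Subgroup.map_commutator, ← MonoidHom.range_eq_map, Subgroup.range_subtype, hZ.perfect]
  have h3 : ∀ n, derivedSeries Z n = ⊤ := by
    intro n
    induction n with
    | zero => rfl
    | succ n ih => rw [derivedSeries_succ, ih, h2]
  obtain ⟨n, hn⟩ := h1.solvable
  rw [h3 n] at hn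
  apply hZ.ne_bot
  rw [← Subgroup.range_subtype Z, MonoidHom.range_eq_map, hn, Subgroup.map_bot]

lemma cc_of_simple {G : Type} [Group G] [Finite G] (h : IsSimpleGroup G) : CC G := by
  refine ⟨inferInstance, ?_⟩
  intro Z Y hA
  exfalso
  -- a head is a nontrivial subnormal subgroup, so it is everything
  have key : ∀ Y : Subgroup G, Y.IsSubnormal → Y ≠ ⊥ → Y = ⊤ := by
    intro Y hY
    induction hY with
    | top => intro _; rfl
    | step H K hle hK hN ih =>
      intro hH
      have hKt : K = ⊤ := ih (fun hK' => hH (le_bot_iff.mp (hK' ▸ hle)))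
      subst hKt
      have : H.Normal := ⟨fun h hh k =>
        (Subgroup.normal_subgroupOf_iff hle).mp hN h k hh trivial⟩
      exact this.eq_bot_or_eq_top.resolve_left hH
  have hY : Y = ⊤ := key Y hA.hY.subnormal hA.hY.ne_bot
  apply hA.not_le
  rw [hY]
  exact le_trans le_top (by rw [Subgroup.normalizer_eq_top]  )

/-- The residual of a group `J` and the residual of a surjective image. -/
lemma res_le_iff_aux {J : Type} [Group J] [Finite J] :
    residual (fun G [Group G] => CC G) J =
      ⨅ (N : Subgroup J) (_ : N.Normal ∧ ∀ (Q : Type) [Group Q] (f : J →* Q),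
        Function.Surjective f → f.ker = N → FF Q), N := by
  rw [residual, sInf_eq_iInf]
  refine iInf_congr fun N => ?_
  refine iInf_congr_Prop ?_ (fun _ => rfl)
  · constructor
    · rintro ⟨hN, hF⟩
      refine ⟨hN, fun Q _ f hf hk => ?_⟩
      have e : (J ⧸ N) ≃* Q :=
        (QuotientGroup.quotientMulEquivOfEq hk.symm).trans
          (QuotientGroup.quotientKerEquivOfSurjective f hf)
      exact FF.of_surjective (f := e.toMonoidHom) e.surjective hF.2
    · rintro ⟨hN, hF⟩
      exact ⟨hN, inferInstance, hF _ (QuotientGroup.mk' N) (QuotientGroup.mk'_surjective N)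
        (QuotientGroup.ker_mk' N)⟩

/-- The residual of a subnormal subgroup of defect two lies in the residual of the group. -/
lemma res_mono_top {G : Type} [Group G] [Finite G] (H : Subgroup G) (hH : SubnormalTwo H) :
    res (fun G [Group G] => CC G) H ≤ res (fun G [Group G] => CC G) (⊤ : Subgroup G) := by
  obtain ⟨M, hM, hHM, hN⟩ := hH
  rintro _ ⟨x, hx, rfl⟩
  refine ⟨⟨x, trivial⟩, ?_, rfl⟩
  rw [SetLike.mem_coe, residual, Subgroup.mem_sInf] at hx ⊢
  rintro N ⟨hNn, hF⟩
  -- the image of `H` in the quotient
  let π : (⊤ : Subgroup G) →* ((⊤ : Subgroup G) ⧸ N) := QuotientGroup.mk' N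
  let ι : G →* (⊤ : Subgroup G) := (Subgroup.topEquiv (G := G)).symm.toMonoidHom
  let q : G →* ((⊤ : Subgroup G) ⧸ N) := π.comp ι
  have hq : Function.Surjective q :=
    (QuotientGroup.mk'_surjective N).comp (Subgroup.topEquiv (G := G)).symm.surjective
  have h1 : (M.map q).Normal := hM.map q hq
  have h2 : CC (M.map q) := cc_normal _ h1 hF
  have hle : H.map q ≤ M.map q := Subgroup.map_mono hHM
  have h3 : ((H.map q).subgroupOf (M.map q)).Normal := by
    rw [Subgroup.normal_subgroupOf_iff hle]
    rintro _ _ ⟨h, hh, rfl⟩ ⟨k, hk, rfl⟩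
    rw [Subgroup.normal_subgroupOf_iff hHM] at hN
    exact ⟨k * h * k⁻¹, hN h k hh hk, by simp⟩
  have h4 : CC ((H.map q).subgroupOf (M.map q)) := cc_normal _ h3 h2
  have h5 : CC (H.map q) :=
    cc_surj (Subgroup.subgroupOfEquivOfLe hle).toMonoidHom
      (Subgroup.subgroupOfEquivOfLe hle).surjective h4
  have h6 : CC (H ⧸ (q.subgroupMap H).ker) := by
    have e := QuotientGroup.quotientKerEquivOfSurjective (q.subgroupMap H)
      (q.subgroupMap_surjective H)
    exact cc_surj e.symm.toMonoidHom e.symm.surjective h5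
  have h7 : x ∈ (q.subgroupMap H).ker := hx _ ⟨inferInstance, h6⟩
  have h8 : q x = 1 := by
    have := congrArg Subtype.val (MonoidHom.mem_ker.mp h7)
    exact this
  have h9 : QuotientGroup.mk' N ⟨(x : G), trivial⟩ = 1 := h8
  rwa [← MonoidHom.mem_ker, QuotientGroup.ker_mk'] at h9

lemma hs_two : SubnormalTwo (HS.comap pr) := by
  refine ⟨(SemidirectProduct.rightHom : SS →* WW).ker.comap pr, ?_,
    Subgroup.comap_mono HS_le, ?_⟩
  · exact (MonoidHom.normal_ker _).comap _
  · rw [Subgroup.normal_subgroupOf_iff (Subgroup.comap_mono HS_le)]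
    intro h k hh hk
    have h1 := HS_conj (Subgroup.mem_comap.mp hh) (Subgroup.mem_comap.mp hk)
    rw [Subgroup.mem_comap, map_mul, map_mul, map_inv]
    exact h1

lemma ks_two : SubnormalTwo (KS.comap pr) := by
  refine ⟨sgn2.ker.comap pr, ?_, Subgroup.comap_mono KS_le, ?_⟩
  · exact (MonoidHom.normal_ker _).comap _
  · rw [Subgroup.normal_subgroupOf_iff (Subgroup.comap_mono KS_le)]
    intro h k hh hk
    have h1 := KS_conj (Subgroup.mem_comap.mp hh) (Subgroup.mem_comap.mp hk)
    rw [Subgroup.mem_comap, map_mul, map_mul, map_inv]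
    exact h1

/-- There is a radical, solubly saturated formation `F` of finite groups, containing all finite
soluble groups and all finite simple groups, and a finite group `G` with two subnormal subgroups
`H` and `K` of defect at most two such that `⟨H, K⟩ = G` and `⟨H^F, K^F⟩` is a proper subgroup
of `⟨H, K⟩^F`. -/
theorem result :
    ∃ F : (G : Type) → [Group G] → Prop,
      IsRadicalFormation F ∧ SolublySaturated F ∧
      (∀ (G : Type) [Group G] [Finite G], Group.IsSolvable G → F G) ∧
      (∀ (G : Type) [Group G] [Finite G], IsSimpleGroup G → F G) ∧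
      ∃ (G : Type) (_ : Group G) (_ : Finite G) (H K : Subgroup G),
        SubnormalTwo H ∧ SubnormalTwo K ∧ H ⊔ K = ⊤ ∧ res F H ⊔ res F K < res F (H ⊔ K) := by
  refine ⟨fun G [Group G] => CC G, radical_cc, saturated_cc, fun G _ _ h => cc_of_solvable h,
    fun G _ _ h => cc_of_simple h, GG, inferInstance, inferInstance, HS.comap pr, KS.comap pr,
    hs_two, ks_two, HK_top, ?_⟩
  rw [HK_top]
  refine lt_of_le_of_ne (sup_le (res_mono_top _ hs_two) (res_mono_top _ ks_two)) ?_
  intro heq
  have h2 := Helper70.res_le HS_sub HS_phi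
  have h3 := Helper70.res_le KS_sub KS_phi
  have h1 := Helper70.res_top (⊤ : Subgroup GG) rfl
  rw [← res_le_iff_aux] at h1 h2 h3
  exact not_EW_le ((h1.trans heq.ge).trans (sup_le h2 h3))

end Pool.Agent.Results.MP_1b0854_al.DefectTwo
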